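import Mathlib
import Pool.Agent.PageNum.Upper

/-!
# Union pages: machinery for partitions of edge sets of complete graphs into union pages
-/

set_option autoImplicit false

namespace Pool.Agent.N399.UP

open Pool.Agent.PageNum Finset

/-- The pairs `a < b < n` with `E a b` can be partitioned into `k` union pages with respect to the
natural order: `pg a b` is the union page and `sb a b` is the part of the union page. -/
def UB (n k : ℕ) (E : ℕ → ℕ → Prop) : Prop :=
  ∃ pg sb : ℕ → ℕ → ℕ,
    (∀ a b, a < b → b < n → E a b → pg a b < k) ∧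
    (∀ a b c d, a < c → c < b → b < d → d < n → E a b → E c d →
      pg a b = pg c d → sb a b ≠ sb c d) ∧
    (∀ a b c d, a < b → b < n → c < d → d < n → E a b → E c d → pg a b = pg c d →
      (a = c ∨ a = d ∨ b = c ∨ b = d) → sb a b = sb c d)

theorem UB.mono {n m k l : ℕ} {E F : ℕ → ℕ → Prop} (h : UB n k E) (hmn : m ≤ n) (hkl : k ≤ l)
    (hF : ∀ a b, a < b → b < m → F a b → E a b) : UB m l F := by
  obtain ⟨pg, sb, h1, h2, h3⟩ := h
  refine ⟨pg, sb, ?_, ?_, ?_⟩
  · intro a b hab hb hE
    exact (h1 a b hab (by omega) (hF a b hab hb hE)).trans_le hkl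
  · intro a b c d c1 c2 c3 hd hE hE'
    exact h2 a b c d c1 c2 c3 (by omega) (hF _ _ (by omega) (by omega) hE)
      (hF _ _ (by omega) hd hE')
  · intro a b c d c1 hb c3 hd hE hE'
    exact h3 a b c d c1 (by omega) c3 (by omega) (hF _ _ c1 hb hE) (hF _ _ c3 hd hE')

theorem UB.union {n k l : ℕ} {E F : ℕ → ℕ → Prop} (h1 : UB n k E) (h2 : UB n l F) :
    UB n (k + l) (fun a b => E a b ∨ F a b) := by
  classical
  obtain ⟨p1, s1, a1, b1, c1⟩ := h1
  obtain ⟨p2, s2, a2, b2, c2⟩ := h2
  refine ⟨fun a b => if E a b then p1 a b else k + p2 a b,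
    fun a b => if E a b then s1 a b else s2 a b, ?_, ?_, ?_⟩
  · intro a b hab hb h
    by_cases hE : E a b
    · simp only [if_pos hE]
      have := a1 a b hab hb hE
      omega
    · simp only [if_neg hE]
      have := a2 a b hab hb (h.resolve_left hE)
      omega
  · intro a b c d x1 x2 x3 hd h h' hpg
    by_cases hE : E a b
    · by_cases hE' : E c d
      · simp only [if_pos hE, if_pos hE'] at hpg ⊢
        exact b1 a b c d x1 x2 x3 hd hE hE' hpg
      · simp only [if_pos hE, if_neg hE'] at hpg
        have := a1 a b (by omega) (by omega) hE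
        omega
    · by_cases hE' : E c d
      · simp only [if_neg hE, if_pos hE'] at hpg
        have := a1 c d (by omega) (by omega) hE'
        omega
      · simp only [if_neg hE, if_neg hE'] at hpg ⊢
        exact b2 a b c d x1 x2 x3 hd (h.resolve_left hE) (h'.resolve_left hE') (by omega)
  · intro a b c d x1 hb x3 hd h h' hpg hv
    by_cases hE : E a b
    · by_cases hE' : E c d
      · simp only [if_pos hE, if_pos hE'] at hpg ⊢
        exact c1 a b c d x1 hb x3 hd hE hE' hpg hv
      · simp only [if_pos hE, if_neg hE'] at hpg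
        have := a1 a b (by omega) (by omega) hE
        omega
    · by_cases hE' : E c d
      · simp only [if_neg hE, if_pos hE'] at hpg
        have := a1 c d (by omega) (by omega) hE'
        omega
      · simp only [if_neg hE, if_neg hE'] at hpg ⊢
        exact c2 a b c d x1 hb x3 hd (h.resolve_left hE) (h'.resolve_left hE') (by omega) hv

theorem UB.empty (n : ℕ) : UB n 0 (fun _ _ => False) :=
  ⟨fun _ _ => 0, fun _ _ => 0, fun _ _ _ _ h => h.elim, fun _ _ _ _ _ _ _ _ h => h.elim,
    fun _ _ _ _ _ _ _ _ h => h.elim⟩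

/-- The edges with a fixed difference form two union pages. -/
theorem UB.diff (n δ : ℕ) (hδ : 1 ≤ δ) : UB n 2 (fun a b => b - a = δ) := by
  refine ⟨fun a _ => (a / δ) % 2, fun a _ => a, ?_, ?_, ?_⟩
  · intro a b _ _ _
    exact Nat.mod_lt _ (by norm_num)
  · intro a b c d c1 _ _ _ _ _ _
    exact c1.ne
  · intro a b c d h1 _ h3 _ e1 e2 hp hv
    simp only at hp e1 e2 ⊢
    rcases hv with h | h | h | h
    · exact h
    · exfalso
      have : a = c + δ := by omega
      rw [this, Nat.add_div_right _ hδ] at hp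
      omega
    · exfalso
      have : c = a + δ := by omega
      rw [this, Nat.add_div_right _ hδ] at hp
      omega
    · omega

/-- The edges with differences in a finite set. -/
theorem UB.diffs (n : ℕ) (F : Finset ℕ) (hF : ∀ δ ∈ F, 1 ≤ δ) :
    UB n (2 * F.card) (fun a b => b - a ∈ F) := by
  classical
  induction F using Finset.induction_on with
  | empty =>
    refine (UB.empty n).mono le_rfl (by simp) ?_
    intro a b _ _ h
    simp at h
  | insert δ F hδ ih =>
    have h1 := (UB.diff n δ (hF δ (mem_insert_self _ _))).union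
      (ih fun δ h => hF δ (mem_insert_of_mem h))
    refine h1.mono le_rfl ?_ ?_
    · rw [card_insert_of_notMem hδ]; omega
    · intro a b _ _ h
      rcases mem_insert.1 h with h | h
      · exact Or.inl h
      · exact Or.inr h

/-- Six disjoint copies of a smaller complete graph. -/
theorem UB.six {m k : ℕ} (h : UB m k fun _ _ => True) : UB (6 * m) k (fun a b => a % 6 = b % 6) := by
  obtain ⟨pg, sb, h1, h2, h3⟩ := h
  refine ⟨fun a b => pg (a / 6) (b / 6), fun a b => 6 * sb (a / 6) (b / 6) + a % 6, ?_, ?_, ?_⟩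
  · intro a b hab hb hE
    exact h1 _ _ (by omega) (by omega) trivial
  · intro a b c d c1 c2 c3 hd hE hE' hp hs
    have e1 : a % 6 = c % 6 := by
      simp only at hs
      omega
    have e2 : sb (a / 6) (b / 6) = sb (c / 6) (d / 6) := by
      simp only at hs
      omega
    exact h2 (a / 6) (b / 6) (c / 6) (d / 6) (by omega) (by omega) (by omega) (by omega) trivial
      trivial hp e2
  · intro a b c d c1 hb c3 hd hE hE' hp hv
    have e1 : a % 6 = c % 6 := by
      rcases hv with h | h | h | h
      · rw [h]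
      · rw [h]; exact hE'.symm
      · rw [← h]; exact hE
      · rw [hE, h]; exact hE'.symm
    have e2 := h3 (a / 6) (b / 6) (c / 6) (d / 6) (by omega) (by omega) (by omega) (by omega)
      trivial trivial hp (by
        rcases hv with h | h | h | h
        · left; rw [h]
        · right; left; rw [h]
        · right; right; left; rw [h]
        · right; right; right; rw [h])
    simp only
    rw [e2, e1]

/-- `ab` is an edge of the translate by `t` of the hexagon. -/
def Cov (n x a c e g t p q : ℕ) : Prop :=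
  t < n ∧ (Hex x a c e g (rot n t p) (rot n t q) ∨ Hex x a c e g (rot n t q) (rot n t p))

/-- The translates of a hexagon with vertices in distinct residue classes modulo 6 form six union
pages. -/
theorem UB.hex {n x a c e g : ℕ} (hn : n % 6 = 0) (h1 : x ≤ a) (h2 : a ≤ c) (h3 : c ≤ e)
    (h4 : e ≤ g) (hd : ∀ p ∈ hexV x a c e g, ∀ q ∈ hexV x a c e g, p % 6 = q % 6 → p = q) :
    UB n 6 (fun p q => ∃ t, Cov n x a c e g t p q) := by
  classical
  let T : ℕ → ℕ → ℕ := fun p q => if h : ∃ t, Cov n x a c e g t p q then h.choose else 0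
  have hT : ∀ p q, (∃ t, Cov n x a c e g t p q) → Cov n x a c e g (T p q) p q := by
    intro p q h
    simp only [T, dif_pos h]
    exact h.choose_spec
  have hmem : ∀ p q t, Cov n x a c e g t p q → rot n t p ∈ hexV x a c e g ∧
      rot n t q ∈ hexV x a c e g := by
    rintro p q t ⟨_, h | h⟩
    · exact ⟨h.left_mem, h.right_mem⟩
    · exact ⟨h.right_mem, h.left_mem⟩
  have hkey : ∀ v t t', v < n → t < n → t' < n → rot n t v ∈ hexV x a c e g →
      rot n t' v ∈ hexV x a c e g → t % 6 = t' % 6 → t = t' := by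
    intro v t t' hv ht ht' m1 m2 hm
    have h5 : rot n t v % 6 = rot n t' v % 6 := by
      unfold rot
      split_ifs <;> omega
    have h6 := hd _ m1 _ m2 h5
    have e1 := rot_rot ht hv rfl
    have e2 := rot_rot ht' hv rfl
    rw [← e1, ← e2, h6]
  refine ⟨fun p q => T p q % 6, T, ?_, ?_, ?_⟩
  · intro p q _ _ _
    exact Nat.mod_lt _ (by norm_num)
  · intro p q r s c1 c2 c3 hs hE hE' _ ht
    have q1 := hT p q hE
    have q2 := hT r s hE'
    rw [← ht] at q2
    exact rot_noncross h1 h2 h3 h4 c1 c2 c3 hs q1.1 q1.2 q2.2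
      (fun p q hpq => Hex.le h1 h2 h3 h4 hpq)
  · intro p q r s c1 hq c3 hs hE hE' hp hv
    have q1 := hT p q hE
    have q2 := hT r s hE'
    obtain ⟨m1, m2⟩ := hmem _ _ _ q1
    obtain ⟨m3, m4⟩ := hmem _ _ _ q2
    simp only at hp
    rcases hv with h | h | h | h
    · subst h
      exact hkey p _ _ (by omega) q1.1 q2.1 m1 m3 hp
    · subst h
      exact hkey p _ _ (by omega) q1.1 q2.1 m1 m4 hp
    · subst h
      exact hkey q _ _ (by omega) q1.1 q2.1 m2 m3 hp
    · subst h
      exact hkey q _ _ (by omega) q1.1 q2.1 m2 m4 hp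

/-- A family of hexagons. -/
theorem UB.hexes {n : ℕ} (hn : n % 6 = 0) (x a c e g : ℕ → ℕ) (N : ℕ)
    (h : ∀ i < N, x i ≤ a i ∧ a i ≤ c i ∧ c i ≤ e i ∧ e i ≤ g i ∧
      ∀ p ∈ hexV (x i) (a i) (c i) (e i) (g i), ∀ q ∈ hexV (x i) (a i) (c i) (e i) (g i),
        p % 6 = q % 6 → p = q) :
    UB n (6 * N) (fun p q => ∃ i < N, ∃ t, Cov n (x i) (a i) (c i) (e i) (g i) t p q) := by
  induction N with
  | zero =>
    refine (UB.empty n).mono le_rfl (by simp) ?_
    rintro p q _ _ ⟨i, hi, _⟩
    omega
  | succ N ih =>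
    obtain ⟨h1, h2, h3, h4, h5⟩ := h N (by omega)
    refine ((ih fun i hi => h i (by omega)).union (UB.hex hn h1 h2 h3 h4 h5)).mono le_rfl
      (by omega) ?_
    rintro p q _ _ ⟨i, hi, ht⟩
    rcases Nat.lt_succ_iff_lt_or_eq.1 hi with hi | hi
    · exact Or.inl ⟨i, hi, ht⟩
    · subst hi
      exact Or.inr ht

/-- Covering of the edge `{u, o}`, where `o = u + d` modulo `n`, by a translate. -/
theorem cov_of_good {n x a c e g p d u o : ℕ} (hG : Good n x a c e g p d) (hu : u < n)
    (ho : (o = u + d ∧ u + d < n) ∨ (o + n = u + d ∧ n ≤ u + d)) :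
    Cov n x a c e g (rot n p u) u o := by
  obtain ⟨h1, h2, h3, h4⟩ := hG
  have hr : rot n (rot n p u) u = p := rot_rot h1 hu rfl
  refine ⟨rot_lt h1 hu, ?_⟩
  rw [hr]
  rcases Nat.lt_or_ge (p + d) n with h5 | h5
  · left
    have : rot n (rot n p u) o = p + d := by
      unfold rot; split_ifs <;> omega
    rw [this]
    exact h3 h5
  · right
    have : rot n (rot n p u) o = 0 := by
      unfold rot; split_ifs <;> omega
    rw [this]
    exact h4 (by omega)

end Pool.Agent.N399.UP
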