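import Mathlib
import Pool.Agent.N399.UP.Base

/-!
# The family of hexagons for the circular lengths that are not divisible by six
-/

set_option autoImplicit false
set_option linter.unusedSimpArgs false

namespace Pool.Agent.N399.UP

open Pool.Agent.PageNum Finset

def tx : ℕ → ℕ
  | 0 => 3
  | 1 => 10
  | 2 => 13
  | 3 => 9
  | 4 => 1
  | 5 => 5
  | 6 => 8
  | 7 => 11
  | 8 => 2
  | _ => 22

def ta : ℕ → ℕ
  | 0 => 13
  | 1 => 7
  | 2 => 8
  | 3 => 2
  | 4 => 3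
  | 5 => 21
  | 6 => 16
  | 7 => 22
  | 8 => 17
  | _ => 23

def tc : ℕ → ℕ
  | 0 => 10
  | 1 => 8
  | 2 => 16
  | 3 => 11
  | 4 => 14
  | 5 => 7
  | 6 => 5
  | 7 => 21
  | 8 => 13
  | _ => 3

def te : ℕ → ℕ
  | 0 => 17
  | 1 => 11
  | 2 => 21
  | 3 => 13
  | 4 => 4
  | 5 => 2
  | 6 => 21
  | 7 => 14
  | 8 => 4
  | _ => 1

def tg : ℕ → ℕ
  | 0 => 20
  | 1 => 3
  | 2 => 5
  | 3 => 10
  | 4 => 17
  | 5 => 4
  | 6 => 7
  | 7 => 1
  | 8 => 9
  | _ => 8

/-- vertices of the hexagons -/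
def hx (S b k : ℕ) : ℕ := 24 * (S - b) + tx k
/-- vertices of the hexagons -/
def ha (S b k : ℕ) : ℕ := 84 * S - 12 * b + ta k
/-- vertices of the hexagons -/
def hc (S b k : ℕ) : ℕ := 108 * S + 12 * b + tc k
/-- vertices of the hexagons -/
def he (S b k : ℕ) : ℕ := 132 * S + 36 * b + te k
/-- vertices of the hexagons -/
def hg (S b k : ℕ) : ℕ := 192 * S + 24 * b + tg k

theorem distinct6 {x a c e g : ℕ} (h1 : x % 6 ≠ 0 ∧ a % 6 ≠ 0 ∧ c % 6 ≠ 0 ∧ e % 6 ≠ 0 ∧ g % 6 ≠ 0)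
    (h2 : x % 6 ≠ a % 6 ∧ x % 6 ≠ c % 6 ∧ x % 6 ≠ e % 6 ∧ x % 6 ≠ g % 6)
    (h3 : a % 6 ≠ c % 6 ∧ a % 6 ≠ e % 6 ∧ a % 6 ≠ g % 6)
    (h4 : c % 6 ≠ e % 6 ∧ c % 6 ≠ g % 6 ∧ e % 6 ≠ g % 6) :
    ∀ p ∈ hexV x a c e g, ∀ q ∈ hexV x a c e g, p % 6 = q % 6 → p = q := by
  intro p hp q hq h
  simp only [hexV, mem_insert, mem_singleton] at hp hq
  obtain ⟨a1, a2, a3, a4, a5⟩ := h1
  obtain ⟨b1, b2, b3, b4⟩ := h2
  obtain ⟨c1, c2, c3⟩ := h3
  obtain ⟨d1, d2, d3⟩ := h4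
  rcases hp with rfl | rfl | rfl | rfl | rfl | rfl <;>
  rcases hq with hq | hq | hq | hq | hq | hq <;> subst hq <;> omega

theorem hex_ok {S b k : ℕ} (hb : b < S) (hk : k < 10) :
    hx S b k ≤ ha S b k ∧ ha S b k ≤ hc S b k ∧ hc S b k ≤ he S b k ∧ he S b k ≤ hg S b k ∧
      hg S b k < 216 * S ∧
      ∀ p ∈ hexV (hx S b k) (ha S b k) (hc S b k) (he S b k) (hg S b k),
        ∀ q ∈ hexV (hx S b k) (ha S b k) (hc S b k) (he S b k) (hg S b k),
        p % 6 = q % 6 → p = q := by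
  unfold hx ha hc he hg
  interval_cases k <;> simp only [tx, ta, tc, te, tg] <;>
    refine ⟨by omega, by omega, by omega, by omega, by omega, ?_⟩ <;>
    refine distinct6 ⟨by omega, by omega, by omega, by omega, by omega⟩
      ⟨by omega, by omega, by omega, by omega⟩ ⟨by omega, by omega, by omega⟩
      ⟨by omega, by omega, by omega⟩

/-- The edge `{p, q}` is covered by some translate of the hexagon with index `(b, k)`. -/
def Cv (S p q : ℕ) : Prop :=
  ∃ b < S, ∃ k < 10, ∃ t, Cov (216 * S) (hx S b k) (ha S b k) (hc S b k) (he S b k) (hg S b k) t p q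

theorem ub_cv (S : ℕ) : UB (216 * S) (60 * S) (Cv S) := by
  have h := UB.hexes (n := 216 * S) (by omega) (fun i => hx S (i / 10) (i % 10))
    (fun i => ha S (i / 10) (i % 10)) (fun i => hc S (i / 10) (i % 10))
    (fun i => he S (i / 10) (i % 10)) (fun i => hg S (i / 10) (i % 10)) (10 * S) (by
      intro i hi
      obtain ⟨h1, h2, h3, h4, _, h5⟩ := hex_ok (S := S) (b := i / 10) (k := i % 10) (by omega)
        (by omega)
      exact ⟨h1, h2, h3, h4, h5⟩)
  refine h.mono le_rfl (by omega) ?_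
  rintro p q _ _ ⟨b, hb, k, hk, t, ht⟩
  refine ⟨10 * b + k, by omega, t, ?_⟩
  have e1 : (10 * b + k) / 10 = b := by omega
  have e2 : (10 * b + k) % 10 = k := by omega
  simp only [e1, e2]
  exact ht

/-- Some hexagon of the family has an edge of circular length `d`. -/
def Len (S d : ℕ) : Prop :=
  ∃ b < S, ∃ k < 10, ∃ p, Good (216 * S) (hx S b k) (ha S b k) (hc S b k) (he S b k) (hg S b k) p d

theorem Len.cv {S d u o : ℕ} (h : Len S d) (hu : u < 216 * S)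
    (ho : (o = u + d ∧ u + d < 216 * S) ∨ (o + 216 * S = u + d ∧ 216 * S ≤ u + d)) :
    Cv S u o := by
  obtain ⟨b, hb, k, hk, p, hG⟩ := h
  exact ⟨b, hb, k, hk, _, cov_of_good hG hu ho⟩

section good

variable {n x a c e g d : ℕ}

theorem gd1 (h : x < n) (h2 : d = x) : Good n x a c e g 0 d := by
  subst h2
  exact ⟨by omega, by omega, fun _ => Or.inl ⟨rfl, by omega⟩, fun h => by omega⟩

theorem gd2 (h : a < n) (h2 : x + d = a) (_ : 0 < d) : Good n x a c e g x d :=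
  ⟨by omega, by omega, fun _ => Or.inr (Or.inl ⟨rfl, by omega⟩), fun h => by omega⟩

theorem gd3 (h : c < n) (h2 : a + d = c) (_ : 0 < d) : Good n x a c e g a d :=
  ⟨by omega, by omega, fun _ => Or.inr (Or.inr (Or.inl ⟨rfl, by omega⟩)), fun h => by omega⟩

theorem gd4 (h : e < n) (h2 : c + d = e) (_ : 0 < d) : Good n x a c e g c d :=
  ⟨by omega, by omega, fun _ => Or.inr (Or.inr (Or.inr (Or.inl ⟨rfl, by omega⟩))),
    fun h => by omega⟩

theorem gd5 (h : g < n) (h2 : e + d = g) (_ : 0 < d) : Good n x a c e g e d :=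
  ⟨by omega, by omega, fun _ => Or.inr (Or.inr (Or.inr (Or.inr (Or.inl ⟨rfl, by omega⟩)))),
    fun h => by omega⟩

theorem gd6 (h2 : g + d = n) (_ : 0 < d) : Good n x a c e g g d :=
  ⟨by omega, by omega, fun h => by omega,
    fun _ => Or.inr (Or.inr (Or.inr (Or.inr (Or.inr (Or.inl ⟨rfl, rfl⟩)))))⟩

theorem gd7 (h : a < n) (h2 : d = a) : Good n x a c e g 0 d := by
  subst h2
  refine ⟨by omega, by omega, fun _ => ?_, fun h => by omega⟩
  rw [Nat.zero_add]
  exact Or.inr (Or.inr (Or.inr (Or.inr (Or.inr (Or.inr (Or.inl ⟨rfl, rfl⟩))))))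

theorem gd8 (h : g < n) (h2 : c + d = g) (_ : 0 < d) : Good n x a c e g c d :=
  ⟨by omega, by omega,
    fun _ => Or.inr (Or.inr (Or.inr (Or.inr (Or.inr (Or.inr (Or.inr (Or.inl
      ⟨rfl, by omega⟩))))))),
    fun h => by omega⟩

theorem gd9 (h2 : c + d = n) (_ : 0 < d) : Good n x a c e g c d := by
  refine ⟨by omega, by omega, fun h => by omega, fun _ => ?_⟩
  exact Or.inr (Or.inr (Or.inr (Or.inr (Or.inr (Or.inr (Or.inr (Or.inr ⟨rfl, rfl⟩)))))))

end good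

theorem len1 {S d : ℕ} (h1 : 48 ≤ d) (h2 : d + 24 ≤ 24 * S) (h6 : d % 6 ≠ 0) : Len S d := by
  have hr : d % 24 = 1 ∨ d % 24 = 2 ∨ d % 24 = 3 ∨ d % 24 = 4 ∨ d % 24 = 5 ∨ d % 24 = 7 ∨ d % 24 = 8 ∨ d % 24 = 9 ∨ d % 24 = 10 ∨ d % 24 = 11 ∨ d % 24 = 13 ∨ d % 24 = 14 ∨ d % 24 = 15 ∨ d % 24 = 16 ∨ d % 24 = 17 ∨ d % 24 = 19 ∨ d % 24 = 20 ∨ d % 24 = 21 ∨ d % 24 = 22 ∨ d % 24 = 23 := by omega
  rcases hr with hr | hr | hr | hr | hr | hr | hr | hr | hr | hr | hr | hr | hr | hr | hr | hr | hr | hr | hr | hr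
  · refine ⟨S - (d - 1) / 24, by omega, 4, by norm_num, _, gd1 (by simp only [hx, ha, hc, he, hg, tx, ta, tc, te, tg]; omega) (by simp only [hx, ha, hc, he, hg, tx, ta, tc, te, tg]; omega)⟩
  · refine ⟨S - (d - 2) / 24, by omega, 8, by norm_num, _, gd1 (by simp only [hx, ha, hc, he, hg, tx, ta, tc, te, tg]; omega) (by simp only [hx, ha, hc, he, hg, tx, ta, tc, te, tg]; omega)⟩
  · refine ⟨S - (d - 3) / 24, by omega, 0, by norm_num, _, gd1 (by simp only [hx, ha, hc, he, hg, tx, ta, tc, te, tg]; omega) (by simp only [hx, ha, hc, he, hg, tx, ta, tc, te, tg]; omega)⟩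
  · refine ⟨S - (d + 20) / 24, by omega, 0, by norm_num, _, gd6 (by simp only [hx, ha, hc, he, hg, tx, ta, tc, te, tg]; omega) (by omega)⟩
  · refine ⟨S - (d - 5) / 24, by omega, 5, by norm_num, _, gd1 (by simp only [hx, ha, hc, he, hg, tx, ta, tc, te, tg]; omega) (by simp only [hx, ha, hc, he, hg, tx, ta, tc, te, tg]; omega)⟩
  · refine ⟨S - (d + 17) / 24, by omega, 4, by norm_num, _, gd6 (by simp only [hx, ha, hc, he, hg, tx, ta, tc, te, tg]; omega) (by omega)⟩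
  · refine ⟨S - (d - 8) / 24, by omega, 6, by norm_num, _, gd1 (by simp only [hx, ha, hc, he, hg, tx, ta, tc, te, tg]; omega) (by simp only [hx, ha, hc, he, hg, tx, ta, tc, te, tg]; omega)⟩
  · refine ⟨S - (d - 9) / 24, by omega, 3, by norm_num, _, gd1 (by simp only [hx, ha, hc, he, hg, tx, ta, tc, te, tg]; omega) (by simp only [hx, ha, hc, he, hg, tx, ta, tc, te, tg]; omega)⟩
  · refine ⟨S - (d - 10) / 24, by omega, 1, by norm_num, _, gd1 (by simp only [hx, ha, hc, he, hg, tx, ta, tc, te, tg]; omega) (by simp only [hx, ha, hc, he, hg, tx, ta, tc, te, tg]; omega)⟩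
  · refine ⟨S - (d - 11) / 24, by omega, 7, by norm_num, _, gd1 (by simp only [hx, ha, hc, he, hg, tx, ta, tc, te, tg]; omega) (by simp only [hx, ha, hc, he, hg, tx, ta, tc, te, tg]; omega)⟩
  · refine ⟨S - (d - 13) / 24, by omega, 2, by norm_num, _, gd1 (by simp only [hx, ha, hc, he, hg, tx, ta, tc, te, tg]; omega) (by simp only [hx, ha, hc, he, hg, tx, ta, tc, te, tg]; omega)⟩
  · refine ⟨S - (d + 10) / 24, by omega, 3, by norm_num, _, gd6 (by simp only [hx, ha, hc, he, hg, tx, ta, tc, te, tg]; omega) (by omega)⟩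
  · refine ⟨S - (d + 9) / 24, by omega, 8, by norm_num, _, gd6 (by simp only [hx, ha, hc, he, hg, tx, ta, tc, te, tg]; omega) (by omega)⟩
  · refine ⟨S - (d + 8) / 24, by omega, 9, by norm_num, _, gd6 (by simp only [hx, ha, hc, he, hg, tx, ta, tc, te, tg]; omega) (by omega)⟩
  · refine ⟨S - (d + 7) / 24, by omega, 6, by norm_num, _, gd6 (by simp only [hx, ha, hc, he, hg, tx, ta, tc, te, tg]; omega) (by omega)⟩
  · refine ⟨S - (d + 5) / 24, by omega, 2, by norm_num, _, gd6 (by simp only [hx, ha, hc, he, hg, tx, ta, tc, te, tg]; omega) (by omega)⟩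
  · refine ⟨S - (d + 4) / 24, by omega, 5, by norm_num, _, gd6 (by simp only [hx, ha, hc, he, hg, tx, ta, tc, te, tg]; omega) (by omega)⟩
  · refine ⟨S - (d + 3) / 24, by omega, 1, by norm_num, _, gd6 (by simp only [hx, ha, hc, he, hg, tx, ta, tc, te, tg]; omega) (by omega)⟩
  · refine ⟨S - (d - 22) / 24, by omega, 9, by norm_num, _, gd1 (by simp only [hx, ha, hc, he, hg, tx, ta, tc, te, tg]; omega) (by simp only [hx, ha, hc, he, hg, tx, ta, tc, te, tg]; omega)⟩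
  · refine ⟨S - (d + 1) / 24, by omega, 7, by norm_num, _, gd6 (by simp only [hx, ha, hc, he, hg, tx, ta, tc, te, tg]; omega) (by omega)⟩

theorem len2 {S d : ℕ} (h1 : 24 * S + 48 ≤ d) (h2 : d + 48 ≤ 48 * S) (h6 : d % 6 ≠ 0) : Len S d := by
  have hr : d % 24 = 1 ∨ d % 24 = 2 ∨ d % 24 = 3 ∨ d % 24 = 4 ∨ d % 24 = 5 ∨ d % 24 = 7 ∨ d % 24 = 8 ∨ d % 24 = 9 ∨ d % 24 = 10 ∨ d % 24 = 11 ∨ d % 24 = 13 ∨ d % 24 = 14 ∨ d % 24 = 15 ∨ d % 24 = 16 ∨ d % 24 = 17 ∨ d % 24 = 19 ∨ d % 24 = 20 ∨ d % 24 = 21 ∨ d % 24 = 22 ∨ d % 24 = 23 := by omega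
  rcases hr with hr | hr | hr | hr | hr | hr | hr | hr | hr | hr | hr | hr | hr | hr | hr | hr | hr | hr | hr | hr
  · refine ⟨(d - 24 * S - 1) / 24, by omega, 1, by norm_num, _, gd3 (by simp only [hx, ha, hc, he, hg, tx, ta, tc, te, tg]; omega) (by simp only [hx, ha, hc, he, hg, tx, ta, tc, te, tg]; omega) (by omega)⟩
  · refine ⟨(d - 24 * S - 2) / 24, by omega, 3, by norm_num, _, gd4 (by simp only [hx, ha, hc, he, hg, tx, ta, tc, te, tg]; omega) (by simp only [hx, ha, hc, he, hg, tx, ta, tc, te, tg]; omega) (by omega)⟩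
  · refine ⟨(d - 24 * S - 3) / 24, by omega, 1, by norm_num, _, gd4 (by simp only [hx, ha, hc, he, hg, tx, ta, tc, te, tg]; omega) (by simp only [hx, ha, hc, he, hg, tx, ta, tc, te, tg]; omega) (by omega)⟩
  · refine ⟨(d + 20 - 24 * S) / 24, by omega, 9, by norm_num, _, gd3 (by simp only [hx, ha, hc, he, hg, tx, ta, tc, te, tg]; omega) (by simp only [hx, ha, hc, he, hg, tx, ta, tc, te, tg]; omega) (by omega)⟩
  · refine ⟨(d - 24 * S - 5) / 24, by omega, 2, by norm_num, _, gd4 (by simp only [hx, ha, hc, he, hg, tx, ta, tc, te, tg]; omega) (by simp only [hx, ha, hc, he, hg, tx, ta, tc, te, tg]; omega) (by omega)⟩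
  · refine ⟨(d - 24 * S - 7) / 24, by omega, 0, by norm_num, _, gd4 (by simp only [hx, ha, hc, he, hg, tx, ta, tc, te, tg]; omega) (by simp only [hx, ha, hc, he, hg, tx, ta, tc, te, tg]; omega) (by omega)⟩
  · refine ⟨(d - 24 * S - 8) / 24, by omega, 2, by norm_num, _, gd3 (by simp only [hx, ha, hc, he, hg, tx, ta, tc, te, tg]; omega) (by simp only [hx, ha, hc, he, hg, tx, ta, tc, te, tg]; omega) (by omega)⟩
  · refine ⟨(d - 24 * S - 9) / 24, by omega, 3, by norm_num, _, gd3 (by simp only [hx, ha, hc, he, hg, tx, ta, tc, te, tg]; omega) (by simp only [hx, ha, hc, he, hg, tx, ta, tc, te, tg]; omega) (by omega)⟩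
  · refine ⟨(d + 14 - 24 * S) / 24, by omega, 5, by norm_num, _, gd3 (by simp only [hx, ha, hc, he, hg, tx, ta, tc, te, tg]; omega) (by simp only [hx, ha, hc, he, hg, tx, ta, tc, te, tg]; omega) (by omega)⟩
  · refine ⟨(d - 24 * S - 11) / 24, by omega, 4, by norm_num, _, gd3 (by simp only [hx, ha, hc, he, hg, tx, ta, tc, te, tg]; omega) (by simp only [hx, ha, hc, he, hg, tx, ta, tc, te, tg]; omega) (by omega)⟩
  · refine ⟨(d + 11 - 24 * S) / 24, by omega, 6, by norm_num, _, gd3 (by simp only [hx, ha, hc, he, hg, tx, ta, tc, te, tg]; omega) (by simp only [hx, ha, hc, he, hg, tx, ta, tc, te, tg]; omega) (by omega)⟩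
  · refine ⟨(d + 10 - 24 * S) / 24, by omega, 4, by norm_num, _, gd4 (by simp only [hx, ha, hc, he, hg, tx, ta, tc, te, tg]; omega) (by simp only [hx, ha, hc, he, hg, tx, ta, tc, te, tg]; omega) (by omega)⟩
  · refine ⟨(d + 9 - 24 * S) / 24, by omega, 8, by norm_num, _, gd4 (by simp only [hx, ha, hc, he, hg, tx, ta, tc, te, tg]; omega) (by simp only [hx, ha, hc, he, hg, tx, ta, tc, te, tg]; omega) (by omega)⟩
  · refine ⟨(d - 24 * S - 16) / 24, by omega, 6, by norm_num, _, gd4 (by simp only [hx, ha, hc, he, hg, tx, ta, tc, te, tg]; omega) (by simp only [hx, ha, hc, he, hg, tx, ta, tc, te, tg]; omega) (by omega)⟩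
  · refine ⟨(d + 7 - 24 * S) / 24, by omega, 7, by norm_num, _, gd4 (by simp only [hx, ha, hc, he, hg, tx, ta, tc, te, tg]; omega) (by simp only [hx, ha, hc, he, hg, tx, ta, tc, te, tg]; omega) (by omega)⟩
  · refine ⟨(d + 5 - 24 * S) / 24, by omega, 5, by norm_num, _, gd4 (by simp only [hx, ha, hc, he, hg, tx, ta, tc, te, tg]; omega) (by simp only [hx, ha, hc, he, hg, tx, ta, tc, te, tg]; omega) (by omega)⟩
  · refine ⟨(d + 4 - 24 * S) / 24, by omega, 8, by norm_num, _, gd3 (by simp only [hx, ha, hc, he, hg, tx, ta, tc, te, tg]; omega) (by simp only [hx, ha, hc, he, hg, tx, ta, tc, te, tg]; omega) (by omega)⟩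
  · refine ⟨(d + 3 - 24 * S) / 24, by omega, 0, by norm_num, _, gd3 (by simp only [hx, ha, hc, he, hg, tx, ta, tc, te, tg]; omega) (by simp only [hx, ha, hc, he, hg, tx, ta, tc, te, tg]; omega) (by omega)⟩
  · refine ⟨(d + 2 - 24 * S) / 24, by omega, 9, by norm_num, _, gd4 (by simp only [hx, ha, hc, he, hg, tx, ta, tc, te, tg]; omega) (by simp only [hx, ha, hc, he, hg, tx, ta, tc, te, tg]; omega) (by omega)⟩
  · refine ⟨(d + 1 - 24 * S) / 24, by omega, 7, by norm_num, _, gd3 (by simp only [hx, ha, hc, he, hg, tx, ta, tc, te, tg]; omega) (by simp only [hx, ha, hc, he, hg, tx, ta, tc, te, tg]; omega) (by omega)⟩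

theorem len3 {S d : ℕ} (h1 : 48 * S + 48 ≤ d) (h2 : d + 48 ≤ 60 * S) (h6 : d % 6 ≠ 0) : Len S d := by
  have hr : d % 12 = 1 ∨ d % 12 = 2 ∨ d % 12 = 3 ∨ d % 12 = 4 ∨ d % 12 = 5 ∨ d % 12 = 7 ∨ d % 12 = 8 ∨ d % 12 = 9 ∨ d % 12 = 10 ∨ d % 12 = 11 := by omega
  rcases hr with hr | hr | hr | hr | hr | hr | hr | hr | hr | hr
  · refine ⟨(60 * S + 13 - d) / 12, by omega, 4, by norm_num, _, gd5 (by simp only [hx, ha, hc, he, hg, tx, ta, tc, te, tg]; omega) (by simp only [hx, ha, hc, he, hg, tx, ta, tc, te, tg]; omega) (by omega)⟩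
  · refine ⟨(60 * S + 2 - d) / 12, by omega, 5, by norm_num, _, gd5 (by simp only [hx, ha, hc, he, hg, tx, ta, tc, te, tg]; omega) (by simp only [hx, ha, hc, he, hg, tx, ta, tc, te, tg]; omega) (by omega)⟩
  · refine ⟨(60 * S + 3 - d) / 12, by omega, 0, by norm_num, _, gd5 (by simp only [hx, ha, hc, he, hg, tx, ta, tc, te, tg]; omega) (by simp only [hx, ha, hc, he, hg, tx, ta, tc, te, tg]; omega) (by omega)⟩
  · refine ⟨(60 * S - d - 8) / 12, by omega, 1, by norm_num, _, gd5 (by simp only [hx, ha, hc, he, hg, tx, ta, tc, te, tg]; omega) (by simp only [hx, ha, hc, he, hg, tx, ta, tc, te, tg]; omega) (by omega)⟩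
  · refine ⟨(60 * S + 5 - d) / 12, by omega, 8, by norm_num, _, gd5 (by simp only [hx, ha, hc, he, hg, tx, ta, tc, te, tg]; omega) (by simp only [hx, ha, hc, he, hg, tx, ta, tc, te, tg]; omega) (by omega)⟩
  · refine ⟨(60 * S + 7 - d) / 12, by omega, 9, by norm_num, _, gd5 (by simp only [hx, ha, hc, he, hg, tx, ta, tc, te, tg]; omega) (by simp only [hx, ha, hc, he, hg, tx, ta, tc, te, tg]; omega) (by omega)⟩
  · refine ⟨(60 * S - d - 16) / 12, by omega, 2, by norm_num, _, gd5 (by simp only [hx, ha, hc, he, hg, tx, ta, tc, te, tg]; omega) (by simp only [hx, ha, hc, he, hg, tx, ta, tc, te, tg]; omega) (by omega)⟩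
  · refine ⟨(60 * S - d - 3) / 12, by omega, 3, by norm_num, _, gd5 (by simp only [hx, ha, hc, he, hg, tx, ta, tc, te, tg]; omega) (by simp only [hx, ha, hc, he, hg, tx, ta, tc, te, tg]; omega) (by omega)⟩
  · refine ⟨(60 * S - d - 14) / 12, by omega, 6, by norm_num, _, gd5 (by simp only [hx, ha, hc, he, hg, tx, ta, tc, te, tg]; omega) (by simp only [hx, ha, hc, he, hg, tx, ta, tc, te, tg]; omega) (by omega)⟩
  · refine ⟨(60 * S - d - 13) / 12, by omega, 7, by norm_num, _, gd5 (by simp only [hx, ha, hc, he, hg, tx, ta, tc, te, tg]; omega) (by simp only [hx, ha, hc, he, hg, tx, ta, tc, te, tg]; omega) (by omega)⟩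

theorem len4 {S d : ℕ} (h1 : 60 * S + 48 ≤ d) (h2 : d + 48 ≤ 72 * S) (h6 : d % 6 ≠ 0) : Len S d := by
  have hr : d % 12 = 1 ∨ d % 12 = 2 ∨ d % 12 = 3 ∨ d % 12 = 4 ∨ d % 12 = 5 ∨ d % 12 = 7 ∨ d % 12 = 8 ∨ d % 12 = 9 ∨ d % 12 = 10 ∨ d % 12 = 11 := by omega
  rcases hr with hr | hr | hr | hr | hr | hr | hr | hr | hr | hr
  · refine ⟨(d - 60 * S - 1) / 12, by omega, 9, by norm_num, _, gd2 (by simp only [hx, ha, hc, he, hg, tx, ta, tc, te, tg]; omega) (by simp only [hx, ha, hc, he, hg, tx, ta, tc, te, tg]; omega) (by omega)⟩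
  · refine ⟨(d - 60 * S - 2) / 12, by omega, 4, by norm_num, _, gd2 (by simp only [hx, ha, hc, he, hg, tx, ta, tc, te, tg]; omega) (by simp only [hx, ha, hc, he, hg, tx, ta, tc, te, tg]; omega) (by omega)⟩
  · refine ⟨(d - 60 * S - 15) / 12, by omega, 8, by norm_num, _, gd2 (by simp only [hx, ha, hc, he, hg, tx, ta, tc, te, tg]; omega) (by simp only [hx, ha, hc, he, hg, tx, ta, tc, te, tg]; omega) (by omega)⟩
  · refine ⟨(d - 60 * S - 16) / 12, by omega, 5, by norm_num, _, gd2 (by simp only [hx, ha, hc, he, hg, tx, ta, tc, te, tg]; omega) (by simp only [hx, ha, hc, he, hg, tx, ta, tc, te, tg]; omega) (by omega)⟩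
  · refine ⟨(d + 7 - 60 * S) / 12, by omega, 3, by norm_num, _, gd2 (by simp only [hx, ha, hc, he, hg, tx, ta, tc, te, tg]; omega) (by simp only [hx, ha, hc, he, hg, tx, ta, tc, te, tg]; omega) (by omega)⟩
  · refine ⟨(d + 5 - 60 * S) / 12, by omega, 2, by norm_num, _, gd2 (by simp only [hx, ha, hc, he, hg, tx, ta, tc, te, tg]; omega) (by simp only [hx, ha, hc, he, hg, tx, ta, tc, te, tg]; omega) (by omega)⟩
  · refine ⟨(d - 60 * S - 8) / 12, by omega, 6, by norm_num, _, gd2 (by simp only [hx, ha, hc, he, hg, tx, ta, tc, te, tg]; omega) (by simp only [hx, ha, hc, he, hg, tx, ta, tc, te, tg]; omega) (by omega)⟩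
  · refine ⟨(d + 3 - 60 * S) / 12, by omega, 1, by norm_num, _, gd2 (by simp only [hx, ha, hc, he, hg, tx, ta, tc, te, tg]; omega) (by simp only [hx, ha, hc, he, hg, tx, ta, tc, te, tg]; omega) (by omega)⟩
  · refine ⟨(d - 60 * S - 10) / 12, by omega, 0, by norm_num, _, gd2 (by simp only [hx, ha, hc, he, hg, tx, ta, tc, te, tg]; omega) (by simp only [hx, ha, hc, he, hg, tx, ta, tc, te, tg]; omega) (by omega)⟩
  · refine ⟨(d - 60 * S - 11) / 12, by omega, 7, by norm_num, _, gd2 (by simp only [hx, ha, hc, he, hg, tx, ta, tc, te, tg]; omega) (by simp only [hx, ha, hc, he, hg, tx, ta, tc, te, tg]; omega) (by omega)⟩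

theorem len5 {S d : ℕ} (h1 : 72 * S + 48 ≤ d) (h2 : d + 48 ≤ 84 * S) (h6 : d % 6 ≠ 0) : Len S d := by
  have hr : d % 12 = 1 ∨ d % 12 = 2 ∨ d % 12 = 3 ∨ d % 12 = 4 ∨ d % 12 = 5 ∨ d % 12 = 7 ∨ d % 12 = 8 ∨ d % 12 = 9 ∨ d % 12 = 10 ∨ d % 12 = 11 := by omega
  rcases hr with hr | hr | hr | hr | hr | hr | hr | hr | hr | hr
  · refine ⟨(84 * S + 13 - d) / 12, by omega, 0, by norm_num, _, gd7 (by simp only [hx, ha, hc, he, hg, tx, ta, tc, te, tg]; omega) (by simp only [hx, ha, hc, he, hg, tx, ta, tc, te, tg]; omega)⟩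
  · refine ⟨(84 * S + 2 - d) / 12, by omega, 3, by norm_num, _, gd7 (by simp only [hx, ha, hc, he, hg, tx, ta, tc, te, tg]; omega) (by simp only [hx, ha, hc, he, hg, tx, ta, tc, te, tg]; omega)⟩
  · refine ⟨(84 * S + 3 - d) / 12, by omega, 4, by norm_num, _, gd7 (by simp only [hx, ha, hc, he, hg, tx, ta, tc, te, tg]; omega) (by simp only [hx, ha, hc, he, hg, tx, ta, tc, te, tg]; omega)⟩
  · refine ⟨(84 * S + 16 - d) / 12, by omega, 6, by norm_num, _, gd7 (by simp only [hx, ha, hc, he, hg, tx, ta, tc, te, tg]; omega) (by simp only [hx, ha, hc, he, hg, tx, ta, tc, te, tg]; omega)⟩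
  · refine ⟨(84 * S + 17 - d) / 12, by omega, 8, by norm_num, _, gd7 (by simp only [hx, ha, hc, he, hg, tx, ta, tc, te, tg]; omega) (by simp only [hx, ha, hc, he, hg, tx, ta, tc, te, tg]; omega)⟩
  · refine ⟨(84 * S + 7 - d) / 12, by omega, 1, by norm_num, _, gd7 (by simp only [hx, ha, hc, he, hg, tx, ta, tc, te, tg]; omega) (by simp only [hx, ha, hc, he, hg, tx, ta, tc, te, tg]; omega)⟩
  · refine ⟨(84 * S + 8 - d) / 12, by omega, 2, by norm_num, _, gd7 (by simp only [hx, ha, hc, he, hg, tx, ta, tc, te, tg]; omega) (by simp only [hx, ha, hc, he, hg, tx, ta, tc, te, tg]; omega)⟩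
  · refine ⟨(84 * S + 21 - d) / 12, by omega, 5, by norm_num, _, gd7 (by simp only [hx, ha, hc, he, hg, tx, ta, tc, te, tg]; omega) (by simp only [hx, ha, hc, he, hg, tx, ta, tc, te, tg]; omega)⟩
  · refine ⟨(84 * S + 22 - d) / 12, by omega, 7, by norm_num, _, gd7 (by simp only [hx, ha, hc, he, hg, tx, ta, tc, te, tg]; omega) (by simp only [hx, ha, hc, he, hg, tx, ta, tc, te, tg]; omega)⟩
  · refine ⟨(84 * S + 23 - d) / 12, by omega, 9, by norm_num, _, gd7 (by simp only [hx, ha, hc, he, hg, tx, ta, tc, te, tg]; omega) (by simp only [hx, ha, hc, he, hg, tx, ta, tc, te, tg]; omega)⟩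

theorem len6 {S d : ℕ} (h1 : 84 * S + 48 ≤ d) (h2 : d + 48 ≤ 96 * S) (h6 : d % 6 ≠ 0) : Len S d := by
  have hr : d % 12 = 1 ∨ d % 12 = 2 ∨ d % 12 = 3 ∨ d % 12 = 4 ∨ d % 12 = 5 ∨ d % 12 = 7 ∨ d % 12 = 8 ∨ d % 12 = 9 ∨ d % 12 = 10 ∨ d % 12 = 11 := by omega
  rcases hr with hr | hr | hr | hr | hr | hr | hr | hr | hr | hr
  · refine ⟨(d + 11 - 84 * S) / 12, by omega, 2, by norm_num, _, gd8 (by simp only [hx, ha, hc, he, hg, tx, ta, tc, te, tg]; omega) (by simp only [hx, ha, hc, he, hg, tx, ta, tc, te, tg]; omega) (by omega)⟩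
  · refine ⟨(d - 84 * S - 2) / 12, by omega, 6, by norm_num, _, gd8 (by simp only [hx, ha, hc, he, hg, tx, ta, tc, te, tg]; omega) (by simp only [hx, ha, hc, he, hg, tx, ta, tc, te, tg]; omega) (by omega)⟩
  · refine ⟨(d - 84 * S - 3) / 12, by omega, 4, by norm_num, _, gd8 (by simp only [hx, ha, hc, he, hg, tx, ta, tc, te, tg]; omega) (by simp only [hx, ha, hc, he, hg, tx, ta, tc, te, tg]; omega) (by omega)⟩
  · refine ⟨(d + 20 - 84 * S) / 12, by omega, 7, by norm_num, _, gd8 (by simp only [hx, ha, hc, he, hg, tx, ta, tc, te, tg]; omega) (by simp only [hx, ha, hc, he, hg, tx, ta, tc, te, tg]; omega) (by omega)⟩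
  · refine ⟨(d - 84 * S - 5) / 12, by omega, 9, by norm_num, _, gd8 (by simp only [hx, ha, hc, he, hg, tx, ta, tc, te, tg]; omega) (by simp only [hx, ha, hc, he, hg, tx, ta, tc, te, tg]; omega) (by omega)⟩
  · refine ⟨(d + 5 - 84 * S) / 12, by omega, 1, by norm_num, _, gd8 (by simp only [hx, ha, hc, he, hg, tx, ta, tc, te, tg]; omega) (by simp only [hx, ha, hc, he, hg, tx, ta, tc, te, tg]; omega) (by omega)⟩
  · refine ⟨(d + 4 - 84 * S) / 12, by omega, 8, by norm_num, _, gd8 (by simp only [hx, ha, hc, he, hg, tx, ta, tc, te, tg]; omega) (by simp only [hx, ha, hc, he, hg, tx, ta, tc, te, tg]; omega) (by omega)⟩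
  · refine ⟨(d + 3 - 84 * S) / 12, by omega, 5, by norm_num, _, gd8 (by simp only [hx, ha, hc, he, hg, tx, ta, tc, te, tg]; omega) (by simp only [hx, ha, hc, he, hg, tx, ta, tc, te, tg]; omega) (by omega)⟩
  · refine ⟨(d - 84 * S - 10) / 12, by omega, 0, by norm_num, _, gd8 (by simp only [hx, ha, hc, he, hg, tx, ta, tc, te, tg]; omega) (by simp only [hx, ha, hc, he, hg, tx, ta, tc, te, tg]; omega) (by omega)⟩
  · refine ⟨(d + 1 - 84 * S) / 12, by omega, 3, by norm_num, _, gd8 (by simp only [hx, ha, hc, he, hg, tx, ta, tc, te, tg]; omega) (by simp only [hx, ha, hc, he, hg, tx, ta, tc, te, tg]; omega) (by omega)⟩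

theorem len7 {S d : ℕ} (h1 : 96 * S + 48 ≤ d) (h2 : d + 48 ≤ 108 * S) (h6 : d % 6 ≠ 0) : Len S d := by
  have hr : d % 12 = 1 ∨ d % 12 = 2 ∨ d % 12 = 3 ∨ d % 12 = 4 ∨ d % 12 = 5 ∨ d % 12 = 7 ∨ d % 12 = 8 ∨ d % 12 = 9 ∨ d % 12 = 10 ∨ d % 12 = 11 := by omega
  rcases hr with hr | hr | hr | hr | hr | hr | hr | hr | hr | hr
  · refine ⟨(108 * S - d - 11) / 12, by omega, 3, by norm_num, _, gd9 (by simp only [hx, ha, hc, he, hg, tx, ta, tc, te, tg]; omega) (by omega)⟩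
  · refine ⟨(108 * S - d - 10) / 12, by omega, 0, by norm_num, _, gd9 (by simp only [hx, ha, hc, he, hg, tx, ta, tc, te, tg]; omega) (by omega)⟩
  · refine ⟨(108 * S - d - 21) / 12, by omega, 7, by norm_num, _, gd9 (by simp only [hx, ha, hc, he, hg, tx, ta, tc, te, tg]; omega) (by omega)⟩
  · refine ⟨(108 * S - d - 8) / 12, by omega, 1, by norm_num, _, gd9 (by simp only [hx, ha, hc, he, hg, tx, ta, tc, te, tg]; omega) (by omega)⟩
  · refine ⟨(108 * S - d - 7) / 12, by omega, 5, by norm_num, _, gd9 (by simp only [hx, ha, hc, he, hg, tx, ta, tc, te, tg]; omega) (by omega)⟩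
  · refine ⟨(108 * S - d - 5) / 12, by omega, 6, by norm_num, _, gd9 (by simp only [hx, ha, hc, he, hg, tx, ta, tc, te, tg]; omega) (by omega)⟩
  · refine ⟨(108 * S - d - 16) / 12, by omega, 2, by norm_num, _, gd9 (by simp only [hx, ha, hc, he, hg, tx, ta, tc, te, tg]; omega) (by omega)⟩
  · refine ⟨(108 * S - d - 3) / 12, by omega, 9, by norm_num, _, gd9 (by simp only [hx, ha, hc, he, hg, tx, ta, tc, te, tg]; omega) (by omega)⟩
  · refine ⟨(108 * S - d - 14) / 12, by omega, 4, by norm_num, _, gd9 (by simp only [hx, ha, hc, he, hg, tx, ta, tc, te, tg]; omega) (by omega)⟩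
  · refine ⟨(108 * S - d - 13) / 12, by omega, 8, by norm_num, _, gd9 (by simp only [hx, ha, hc, he, hg, tx, ta, tc, te, tg]; omega) (by omega)⟩

end Pool.Agent.N399.UP
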