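import Mathlib
import Pool.Agent.N399.UP.Base
import Pool.Agent.N399.UP.Family

/-!
# Upper bound `n / 3 + O(log n)` for the union page number of the complete graph
-/

set_option autoImplicit false

namespace Pool.Agent.N399.UP

open Pool.Agent.PageNum Finset

theorem Cv.symm {S p q : ℕ} (h : Cv S p q) : Cv S q p := by
  obtain ⟨b, hb, k, hk, t, ht, h⟩ := h
  exact ⟨b, hb, k, hk, t, ht, h.symm⟩

/-- Possible centres of exceptional lengths. -/
def ctr : Finset ℕ := {0, 24, 48, 60, 72, 84, 96, 108}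

/-- The exceptional differences. -/
def exc (S : ℕ) : Finset ℕ :=
  (((ctr ×ˢ range 97).image fun p => p.1 * S + p.2 - 48) ∪
    ((ctr ×ˢ range 97).image fun p => 216 * S - (p.1 * S + p.2 - 48))).filter fun δ => 1 ≤ δ

theorem exc_card (S : ℕ) : (exc S).card ≤ 1552 := by
  unfold exc
  refine (card_filter_le _ _).trans ((card_union_le _ _).trans ?_)
  have h1 : (ctr ×ˢ range 97).card = 776 := by
    rw [card_product]
    rfl
  have h2 := card_image_le (s := ctr ×ˢ range 97) (f := fun p => p.1 * S + p.2 - 48)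
  have h3 := card_image_le (s := ctr ×ˢ range 97) (f := fun p => 216 * S - (p.1 * S + p.2 - 48))
  omega

theorem mem_exc {S d δ j : ℕ} (hj : j ∈ ctr) (h1 : j * S ≤ d + 48) (h2 : d ≤ j * S + 48)
    (hd : 1 ≤ δ) (h : δ = d ∨ δ = 216 * S - d) : δ ∈ exc S := by
  unfold exc
  rw [mem_filter, mem_union, mem_image, mem_image]
  refine ⟨?_, hd⟩
  rcases h with h | h
  · left
    refine ⟨(j, d + 48 - j * S), ?_, ?_⟩
    · rw [mem_product, mem_range]
      exact ⟨hj, by simp only; omega⟩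
    · simp only; omega
  · right
    refine ⟨(j, d + 48 - j * S), ?_, ?_⟩
    · rw [mem_product, mem_range]
      exact ⟨hj, by simp only; omega⟩
    · simp only
      rw [h]
      congr 1
      omega

theorem len_or_exc {S d : ℕ} (h6 : d % 6 ≠ 0) (hd : d ≤ 108 * S) :
    Len S d ∨ ∃ j ∈ ctr, j * S ≤ d + 48 ∧ d ≤ j * S + 48 := by
  have hc : ∀ j ∈ ({0, 24, 48, 60, 72, 84, 96, 108} : Finset ℕ), j ∈ ctr := fun j hj => hj
  by_cases c1 : 48 ≤ d ∧ d + 24 ≤ 24 * S
  · exact Or.inl (len1 c1.1 c1.2 h6)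
  by_cases c2 : 24 * S + 48 ≤ d ∧ d + 48 ≤ 48 * S
  · exact Or.inl (len2 c2.1 c2.2 h6)
  by_cases c3 : 48 * S + 48 ≤ d ∧ d + 48 ≤ 60 * S
  · exact Or.inl (len3 c3.1 c3.2 h6)
  by_cases c4 : 60 * S + 48 ≤ d ∧ d + 48 ≤ 72 * S
  · exact Or.inl (len4 c4.1 c4.2 h6)
  by_cases c5 : 72 * S + 48 ≤ d ∧ d + 48 ≤ 84 * S
  · exact Or.inl (len5 c5.1 c5.2 h6)
  by_cases c6 : 84 * S + 48 ≤ d ∧ d + 48 ≤ 96 * S
  · exact Or.inl (len6 c6.1 c6.2 h6)
  by_cases c7 : 96 * S + 48 ≤ d ∧ d + 48 ≤ 108 * S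
  · exact Or.inl (len7 c7.1 c7.2 h6)
  right
  by_cases e0 : d ≤ 48
  · exact ⟨0, hc 0 (by simp), by omega, by omega⟩
  by_cases e1 : d ≤ 24 * S + 48
  · exact ⟨24, hc 24 (by simp), by omega, by omega⟩
  by_cases e2 : d ≤ 48 * S + 48
  · exact ⟨48, hc 48 (by simp), by omega, by omega⟩
  by_cases e3 : d ≤ 60 * S + 48
  · exact ⟨60, hc 60 (by simp), by omega, by omega⟩
  by_cases e4 : d ≤ 72 * S + 48
  · exact ⟨72, hc 72 (by simp), by omega, by omega⟩
  by_cases e5 : d ≤ 84 * S + 48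
  · exact ⟨84, hc 84 (by simp), by omega, by omega⟩
  by_cases e6 : d ≤ 96 * S + 48
  · exact ⟨96, hc 96 (by simp), by omega, by omega⟩
  · exact ⟨108, hc 108 (by simp), by omega, by omega⟩

theorem step {S k : ℕ} (h : UB (36 * S) k fun _ _ => True) :
    UB (216 * S) (60 * S + (3104 + k)) fun _ _ => True := by
  have h1 := ub_cv S
  have h2 := UB.diffs (216 * S) (exc S) (fun δ hδ => (mem_filter.1 hδ).2)
  have h3 := h.six
  have h4 : 6 * (36 * S) = 216 * S := by ring
  rw [h4] at h3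
  refine (h1.union (h2.union h3)).mono le_rfl ?_ ?_
  · have := exc_card S
    omega
  · intro a b hab hb _
    by_cases h6 : a % 6 = b % 6
    · exact Or.inr (Or.inr h6)
    rcases Nat.lt_or_ge (108 * S) (b - a) with hl | hl
    · rcases len_or_exc (S := S) (d := 216 * S - (b - a)) (by omega) (by omega) with hL | ⟨j, hj, g1, g2⟩
      · exact Or.inl (hL.cv (u := b) (o := a) hb (Or.inr ⟨by omega, by omega⟩)).symm
      · exact Or.inr (Or.inl (mem_exc hj g1 g2 (by omega) (Or.inr (by omega))))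
    · rcases len_or_exc (S := S) (d := b - a) (by omega) (by omega) with hL | ⟨j, hj, g1, g2⟩
      · exact Or.inl (hL.cv (u := a) (o := b) (by omega) (Or.inl ⟨by omega, by omega⟩))
      · exact Or.inr (Or.inl (mem_exc hj g1 g2 (by omega) (Or.inl rfl)))

theorem ub_triv (n : ℕ) : UB n (2 * n) fun _ _ => True := by
  have h := UB.diffs n ((range n).filter fun δ => 1 ≤ δ) (fun δ hδ => (mem_filter.1 hδ).2)
  refine h.mono le_rfl ?_ ?_
  · have := (card_filter_le (range n) fun δ => 1 ≤ δ)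
    rw [card_range] at this
    omega
  · intro a b hab hb _
    rw [mem_filter, mem_range]
    omega

/-- **Upper bound.** -/
theorem ub_all (n : ℕ) : UB n (n / 3 + 3200 * (Nat.log 2 n + 1)) fun _ _ => True := by
  induction n using Nat.strong_induction_on with
  | _ n ih =>
    rcases Nat.lt_or_ge 216 n with h | h
    · set S := (n + 215) / 216 with hS
      have hm : 36 * S < n := by omega
      have h1 := step (ih (36 * S) hm)
      refine h1.mono (by omega) ?_ (fun _ _ _ _ _ => trivial)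
      have h2 : 72 * S ≤ n := by omega
      have h3 : Nat.log 2 (36 * S) + 1 ≤ Nat.log 2 n := by
        have h4 : Nat.log 2 (36 * S * 2) = Nat.log 2 (36 * S) + 1 :=
          Nat.log_mul_base (by norm_num) (by omega)
        rw [← h4]
        exact Nat.log_mono_right (by omega)
      generalize Nat.log 2 (36 * S) = L1 at h3 ⊢
      generalize Nat.log 2 n = L2 at h3 ⊢
      omega
    · refine (ub_triv n).mono le_rfl ?_ (fun _ _ _ _ _ => trivial)
      generalize Nat.log 2 n = L
      omega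

end Pool.Agent.N399.UP
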